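import Pool.Agent.Y228.HX.Stm3

/-! The Ehrhart series of a compact face and of its cone over `0`. -/

set_option autoImplicit false

namespace Pool.Agent.Y26.HX

open Pool.Agent.Y228.HX

theorem expd_uniq {E E' : RatFunc ℚ} {S : PowerSeries ℚ} (h : Expd E S) (h' : Expd E' S) :
    E = E' := by
  obtain ⟨A, B, h1, h2, h3⟩ := h
  obtain ⟨A', B', h1', h2', h3'⟩ := h'
  have h4 : B' * A = B * A' := by
    apply Polynomial.coe_injective ℚ
    rw [Polynomial.coe_mul, Polynomial.coe_mul, ← h3, ← h3']
    ring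
  have hne : ∀ B : Polynomial ℚ, B.coeff 0 ≠ 0 → algebraMap (Polynomial ℚ) (RatFunc ℚ) B ≠ 0 := by
    intro B hB h
    have : B = 0 := by
      rwa [map_eq_zero_iff _ (RatFunc.algebraMap_injective ℚ)] at h
    rw [this] at hB
    simp at hB
  have h5 := congrArg (algebraMap (Polynomial ℚ) (RatFunc ℚ)) h4
  rw [map_mul, map_mul, ← h2, ← h2'] at h5
  have h6 : (algebraMap (Polynomial ℚ) (RatFunc ℚ) B * algebraMap (Polynomial ℚ) (RatFunc ℚ) B') *
      E = (algebraMap (Polynomial ℚ) (RatFunc ℚ) B * algebraMap (Polynomial ℚ) (RatFunc ℚ) B') *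
      E' := by
    linear_combination h5
  exact mul_left_cancel₀ (mul_ne_zero (hne B h1) (hne B' h1')) h6

theorem expd_add {E E' : RatFunc ℚ} {S S' : PowerSeries ℚ} (h : Expd E S) (h' : Expd E' S') :
    Expd (E + E') (S + S') := by
  obtain ⟨A, B, h1, h2, h3⟩ := h
  obtain ⟨A', B', h1', h2', h3'⟩ := h'
  refine ⟨A * B' + A' * B, B * B', ?_, ?_, ?_⟩
  · rw [Polynomial.mul_coeff_zero]
    exact mul_ne_zero h1 h1'
  · rw [map_mul, map_add, map_mul, map_mul, ← h2, ← h2']
    ring
  · rw [Polynomial.coe_add, Polynomial.coe_mul, Polynomial.coe_mul, Polynomial.coe_mul, ← h3,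
      ← h3']
    ring

theorem expd_zero : Expd 0 0 := ⟨0, 1, by simp, by simp, by simp⟩

theorem expd_sum {ι : Type} (s : Finset ι) (E : ι → RatFunc ℚ) (S : ι → PowerSeries ℚ)
    (h : ∀ i ∈ s, Expd (E i) (S i)) : Expd (∑ i ∈ s, E i) (∑ i ∈ s, S i) := by
  classical
  induction s using Finset.induction_on with
  | empty => simpa using expd_zero
  | insert a s ha ih =>
    rw [Finset.sum_insert ha, Finset.sum_insert ha]
    exact expd_add (h a (Finset.mem_insert_self _ _))
      (ih fun i hi => h i (Finset.mem_insert_of_mem hi))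

theorem expd_ser (hS : S_SER) {R N : ℕ} (v : Fin R → Fin N → ℕ) (I : Finset (Fin R))
    (hI : Ind v I) (n : ℕ) (hn : I.card = n) :
    Expd ((Polynomial.aeval (RatFunc.X : RatFunc ℚ) (P1 v I)) / (1 - RatFunc.X) ^ n)
      (PowerSeries.mk fun k => ((Rel v I k).ncard : ℚ)) := by
  refine ⟨P1 v I, (1 - Polynomial.X) ^ n, ?_, ?_, ?_⟩
  · rw [Polynomial.coeff_zero_eq_eval_zero]
    simp
  · have hX : (1 : RatFunc ℚ) - RatFunc.X ≠ 0 := by
      intro h
      have h1 : algebraMap (Polynomial ℚ) (RatFunc ℚ) (1 - Polynomial.X) = 0 := by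
        rw [map_sub, map_one, RatFunc.algebraMap_X]
        exact h
      rw [map_eq_zero_iff _ (RatFunc.algebraMap_injective ℚ)] at h1
      have h2 := congrArg (Polynomial.eval 0) h1
      simp at h2
    rw [map_pow, map_sub, map_one, RatFunc.algebraMap_X, div_mul_cancel₀ _ (pow_ne_zero _ hX)]
    rw [← RatFunc.algebraMap_X, Polynomial.aeval_algebraMap_apply, Polynomial.aeval_X_left,
      AlgHom.id_apply]
  · have := (hS R N v I hI).2
    rw [hn] at this
    rw [← this]
    congr 1
    rw [Polynomial.coe_pow]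
    congr 1
    rw [Polynomial.coe_sub, Polynomial.coe_one, Polynomial.coe_X]

theorem card_Ip {R : ℕ} (I : Finset (Fin R)) : (Ip I).card = I.card + 1 := by
  unfold Ip
  rw [Finset.card_insert_of_notMem, Finset.card_map]
  simp only [Finset.mem_map, Fin.coe_succEmb, not_exists, not_and]
  exact fun k _ h => Fin.succ_ne_zero k h

theorem t_EXP : S_EHR → S_SER → S_INDP → S_EXP := by
  intro hE hS hI r N v ω hG wk mk hwk hmk hmk0 κ hκ
  have hE' := hE r N v ω hG wk mk hwk hmk hmk0 κ hκ
  obtain ⟨hI1, hI2⟩ := hI r N v ω hG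
  constructor
  · intro E h
    refine expd_uniq h ?_
    have e : (PowerSeries.mk fun k => ((Dil v κ k).ncard : ℚ)) =
        ∑ I ∈ κ.powerset, (open Classical in if TT v ω I then
          (PowerSeries.mk fun k => ((Rel v I k).ncard : ℚ)) else 0) := by
      ext k
      rw [PowerSeries.coeff_mk, (hE' k).1, map_sum]
      push_cast
      refine Finset.sum_congr rfl fun I _ => ?_
      split_ifs
      · rw [PowerSeries.coeff_mk]
      · simp
    rw [e]
    refine expd_sum _ _ _ fun I hIκ => ?_
    split_ifs with hT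
    · exact expd_ser hS v I (hI1 I hT) _ rfl
    · exact expd_zero
  · intro E h
    refine expd_uniq h ?_
    have e : (PowerSeries.mk fun k => ((Dil0 v κ k).ncard : ℚ)) =
        ∑ I ∈ κ.powerset, (open Classical in if TT v ω I then
          (PowerSeries.mk fun k => ((Rel v I k).ncard : ℚ)) +
            (PowerSeries.mk fun k => ((Rel (vp v) (Ip I) k).ncard : ℚ)) else 0) := by
      ext k
      rw [PowerSeries.coeff_mk, (hE' k).2, map_sum]
      push_cast
      refine Finset.sum_congr rfl fun I _ => ?_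
      split_ifs
      · rw [map_add, PowerSeries.coeff_mk, PowerSeries.coeff_mk]
        rfl
      · simp
    rw [e]
    refine expd_sum _ _ _ fun I hIκ => ?_
    split_ifs with hT
    · refine expd_add (expd_ser hS v I (hI1 I hT) _ rfl) ?_
      exact expd_ser hS (vp v) (Ip I) (hI2 wk mk hmk0.ne' I hT fun j hj =>
        (hκ j).1 (Finset.mem_powerset.1 hIκ hj)) _ (card_Ip I)
    · exact expd_zero

end Pool.Agent.Y26.HX
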