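import Pool.Agent.Y228.HX.Stm2

/-! Integral generic heights. -/

set_option autoImplicit false

namespace Pool.Agent.Y26.HX

open Pool.Agent.TH216.MF Pool.Agent.W425.SV
open Pool.Agent.Y228.HX (AffRel Gen S_GENREL)

variable {r N : ℕ}

theorem approx' {ι : Type} [Fintype ι] (c0 : ι → Fin r → ℤ) (θ : Fin r → ℝ)
    (h : ∀ k, 0 < ∑ j, (c0 k j : ℝ) * θ j) :
    ∃ θ' : Fin r → ℤ, ∀ k, 0 < ∑ j, c0 k j * θ' j := by
  obtain ⟨θ', h0⟩ := approx (Fintype.card ι) (fun k => c0 ((Fintype.equivFin ι).symm k)) θ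
    (fun k => h _)
  refine ⟨θ', fun k => ?_⟩
  have h1 := h0 (Fintype.equivFin ι k)
  rwa [Equiv.symm_apply_apply] at h1

/-- all the terms of weight zero are killed far away in one direction -/
theorem relG_of_relV' (v : Fin r → Fin N → ℕ) (θ : Fin r → ℝ) (loc : Prop) (p : Polynomial ℂ)
    (h : RelV v θ loc p) {ι : Type} [Fintype ι] (ce : ι → Fin r → ℤ)
    (hce : ∀ k, 0 < ∑ j, (ce k j : ℝ) * θ j) : ∃ (θ0 : Fin r → ℤ) (Λ : ℕ),
      (∀ k, 0 < ∑ j, ce k j * θ0 j) ∧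
      RelG v (Kil1 v) (KilU v fun j => θ0 j - Λ * ((∑ i, v j i : ℕ) : ℤ)) p := by
  classical
  obtain ⟨M, n, n0, c, B, q, c0, q0, hc, hc0, hrel⟩ := h
  obtain ⟨θ0, hθ0, hθe⟩ : ∃ θ0 : Fin r → ℤ, (∀ k, 0 < ∑ j, (c0 k j : ℝ) * θ j →
      0 < ∑ j, c0 k j * θ0 j) ∧ ∀ k, 0 < ∑ j, ce k j * θ0 j := by
    obtain ⟨θ0, h0⟩ := approx' (ι := {k : Fin n0 // 0 < ∑ j, (c0 k j : ℝ) * θ j} ⊕ ι)
      (Sum.elim (fun k => c0 k.1) ce) θ (by
        rintro (k | k)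
        · exact k.2
        · exact hce k)
    exact ⟨θ0, fun k hk => h0 (Sum.inl ⟨k, hk⟩), fun k => h0 (Sum.inr k)⟩
  have hl : ∀ k, ∃ l : Fin r → ℝ, (∀ j, 0 ≤ l j) ∧ ∑ j, ((c0 k j : ℝ) + l j) = 0 ∧
      (∀ i, ∑ j, ((c0 k j : ℝ) + l j) * (v j i : ℝ) ≤ 0) ∧
      ((0 < ∑ j, ((c0 k j : ℝ) + l j) * (θ0 j : ℝ) ∧
        ∀ i, ∑ j, ((c0 k j : ℝ) + l j) * (v j i : ℝ) = 0) ∨
      ∃ i, ∑ j, ((c0 k j : ℝ) + l j) * (v j i : ℝ) < 0) := by
    intro k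
    rcases hc0 k with ⟨h1, h2, h3⟩ | ⟨-, l, h1, h2, h3, h4⟩
    · have h5 : ∀ i, ∑ j, ((c0 k j : ℝ) + 0) * (v j i : ℝ) = 0 := by
        intro i
        simp only [add_zero]
        exact_mod_cast h2 i
      refine ⟨fun _ => 0, fun _ => le_refl _, ?_, fun i => (h5 i).le, Or.inl ⟨?_, h5⟩⟩
      · simp only [add_zero]
        exact_mod_cast h1
      · simp only [add_zero]
        have := hθ0 k h3
        exact_mod_cast this
    · exact ⟨l, h1, h2, h3, Or.inr h4⟩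
  choose l hl0 hl1 hl2 hl3 using hl
  -- the sum of the coordinates
  have hδ : ∀ k, (∃ i, ∑ j, ((c0 k j : ℝ) + l k j) * (v j i : ℝ) < 0) →
      ∑ j, ((c0 k j : ℝ) + l k j) * ((∑ i, v j i : ℕ) : ℝ) < 0 := by
    rintro k ⟨i, hi⟩
    have h1 : ∑ j, ((c0 k j : ℝ) + l k j) * ((∑ i, v j i : ℕ) : ℝ) =
        ∑ i, ∑ j, ((c0 k j : ℝ) + l k j) * (v j i : ℝ) := by
      rw [Finset.sum_comm]
      refine Finset.sum_congr rfl fun j _ => ?_
      push_cast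
      rw [Finset.mul_sum]
    rw [h1]
    refine lt_of_lt_of_eq (Finset.sum_lt_sum (g := fun _ => (0 : ℝ)) (fun i _ => hl2 k i)
      ⟨i, Finset.mem_univ i, hi⟩) Finset.sum_const_zero
  obtain ⟨Λ, hΛ⟩ := exists_nat_gt (∑ k, |∑ j, ((c0 k j : ℝ) + l k j) * (θ0 j : ℝ)| /
    |∑ j, ((c0 k j : ℝ) + l k j) * ((∑ i, v j i : ℕ) : ℝ)|)
  refine ⟨θ0, Λ, hθe, M, n, n0, c, B, q, c0, q0, hc, fun k =>
    ⟨l k, hl0 k, hl1 k, hl2 k, ?_⟩, hrel⟩
  have h1 : ∑ j, ((c0 k j : ℝ) + l k j) *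
      ((θ0 j - Λ * ((∑ i, v j i : ℕ) : ℤ) : ℤ) : ℝ) =
      ∑ j, ((c0 k j : ℝ) + l k j) * (θ0 j : ℝ) -
        Λ * ∑ j, ((c0 k j : ℝ) + l k j) * ((∑ i, v j i : ℕ) : ℝ) := by
    rw [Finset.mul_sum, ← Finset.sum_sub_distrib]
    refine Finset.sum_congr rfl fun j _ => ?_
    push_cast
    ring
  rw [h1]
  rcases hl3 k with ⟨h2, h3⟩ | h2
  · have h4 : ∑ j, ((c0 k j : ℝ) + l k j) * ((∑ i, v j i : ℕ) : ℝ) = 0 := by
      have h5 : ∑ j, ((c0 k j : ℝ) + l k j) * ((∑ i, v j i : ℕ) : ℝ) =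
          ∑ i, ∑ j, ((c0 k j : ℝ) + l k j) * (v j i : ℝ) := by
        rw [Finset.sum_comm]
        refine Finset.sum_congr rfl fun j _ => ?_
        push_cast
        rw [Finset.mul_sum]
      rw [h5]
      exact Finset.sum_eq_zero fun i _ => h3 i
    rw [h4, mul_zero, sub_zero]
    exact h2
  · have h3 := hδ k h2
    have h4 : |∑ j, ((c0 k j : ℝ) + l k j) * (θ0 j : ℝ)| /
        |∑ j, ((c0 k j : ℝ) + l k j) * ((∑ i, v j i : ℕ) : ℝ)| < Λ :=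
      lt_of_le_of_lt (Finset.single_le_sum
        (f := fun k => |∑ j, ((c0 k j : ℝ) + l k j) * (θ0 j : ℝ)| /
          |∑ j, ((c0 k j : ℝ) + l k j) * ((∑ i, v j i : ℕ) : ℝ)|)
        (fun k _ => div_nonneg (abs_nonneg _) (abs_nonneg _)) (Finset.mem_univ k)) hΛ
    rw [abs_of_neg h3, div_lt_iff₀ (by linarith)] at h4
    have h5 := neg_abs_le (∑ j, ((c0 k j : ℝ) + l k j) * (θ0 j : ℝ))
    linarith


theorem int_rel (v : Fin r → Fin N → ℕ) (θ : Fin r → ℝ) (hθ : LinearIndependent ℚ θ)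
    (I : Finset (Fin r)) (hI : ¬ Pool.Agent.Y228.HX.Ind v I) : ∃ c : Fin r → ℤ, AffRel v I (fun j => (c j : ℚ)) ∧
      0 < ∑ j, (c j : ℝ) * θ j := by
  unfold Pool.Agent.Y228.HX.Ind at hI
  push Not at hI
  obtain ⟨c, hc, hc0⟩ := hI
  obtain ⟨D, hD⟩ : ∃ D : ℕ, D = ∏ j, (c j).den := ⟨_, rfl⟩
  have hDpos : 0 < D := by
    rw [hD]; exact Finset.prod_pos fun j _ => (c j).den_pos
  have hex : ∀ j, ∃ n : ℤ, (n : ℚ) = (D : ℚ) * c j := by
    intro j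
    obtain ⟨k, hk⟩ : (c j).den ∣ D := by
      rw [hD]; exact Finset.dvd_prod_of_mem _ (Finset.mem_univ j)
    refine ⟨(k : ℤ) * (c j).num, ?_⟩
    have h1 : (c j) * ((c j).den : ℚ) = ((c j).num : ℚ) := Rat.mul_den_eq_num (c j)
    rw [hk]
    push_cast
    rw [← h1]
    ring
  choose n hn using hex
  have hrel : AffRel v I (fun j => (n j : ℚ)) := by
    refine ⟨fun j hj => ?_, ?_, fun i => ?_⟩
    · show (n j : ℚ) = 0
      rw [hn, hc.1 j hj, mul_zero]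
    · simp only [hn]
      rw [← Finset.mul_sum, hc.2.1, mul_zero]
    · simp only [hn, mul_assoc]
      rw [← Finset.mul_sum, hc.2.2 i, mul_zero]
  have hne : ∑ j, (n j : ℝ) * θ j ≠ 0 := by
    intro h
    apply hc0
    rw [Fintype.linearIndependent_iff] at hθ
    have h1 : ∀ j, (n j : ℚ) = 0 := hθ (fun j => (n j : ℚ)) (by
      rw [← h]
      refine Finset.sum_congr rfl fun j _ => ?_
      rw [Rat.smul_def]
      push_cast
      rfl)
    funext j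
    have h2 := h1 j
    rw [hn] at h2
    rcases mul_eq_zero.1 h2 with h3 | h3
    · exact absurd h3 (by exact_mod_cast hDpos.ne')
    · exact h3
  rcases lt_or_gt_of_ne hne with h | h
  · refine ⟨fun j => -n j, ⟨fun j hj => ?_, ?_, fun i => ?_⟩, ?_⟩
    · have : (n j : ℚ) = 0 := hrel.1 j hj
      push_cast
      rw [this, neg_zero]
    · push_cast
      rw [Finset.sum_neg_distrib, hrel.2.1, neg_zero]
    · push_cast
      simp only [neg_mul]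
      rw [Finset.sum_neg_distrib, hrel.2.2 i, neg_zero]
    · push_cast
      simp only [neg_mul]
      rw [Finset.sum_neg_distrib]
      linarith
  · exact ⟨n, hrel, h⟩

theorem t_GENREL : S_GENREL := by
  classical
  intro r N v θ loc p hθ h
  have hc := fun I : {I : Finset (Fin r) // ¬ Pool.Agent.Y228.HX.Ind v I} => int_rel v θ hθ I.1 I.2
  choose ce hce1 hce2 using hc
  obtain ⟨θ0, Λ, h1, h2⟩ := relG_of_relV' v θ loc p h ce hce2
  obtain ⟨θ1, hθ1⟩ : ∃ θ1 : Fin r → ℤ, θ1 = fun j => θ0 j - Λ * ((∑ i, v j i : ℕ) : ℤ) :=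
    ⟨_, rfl⟩
  rw [← hθ1] at h2
  obtain ⟨D, hD⟩ : ∃ D : ℤ, D = ∑ j, |θ1 j| := ⟨_, rfl⟩
  have hω : ∀ j, (((D - θ1 j).toNat : ℕ) : ℤ) = D - θ1 j := by
    intro j
    apply Int.toNat_of_nonneg
    have h3 : |θ1 j| ≤ D := by
      rw [hD]
      exact Finset.single_le_sum (f := fun j => |θ1 j|) (fun j _ => abs_nonneg _)
        (Finset.mem_univ j)
    have h4 := le_abs_self (θ1 j)
    linarith
  refine ⟨fun j => (D - θ1 j).toNat, ?_, ?_⟩
  · intro I hI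
    by_contra hn
    have h3 := hI _ (hce1 ⟨I, hn⟩)
    have h4 := h1 ⟨I, hn⟩
    obtain ⟨_, h5, h6⟩ := hce1 ⟨I, hn⟩
    generalize ce ⟨I, hn⟩ = c at h3 h4 h5 h6
    have h7 : ∑ j, (c j : ℚ) * (((D - θ1 j).toNat : ℕ) : ℚ) =
        (D : ℚ) * ∑ j, (c j : ℚ) - ∑ j, (c j : ℚ) * (θ0 j : ℚ) +
          (Λ : ℚ) * ∑ i, ∑ j, (c j : ℚ) * (v j i : ℚ) := by
      rw [Finset.sum_comm, Finset.mul_sum, Finset.mul_sum, ← Finset.sum_sub_distrib,
        ← Finset.sum_add_distrib]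
      refine Finset.sum_congr rfl fun j _ => ?_
      have h8 : (((D - θ1 j).toNat : ℕ) : ℚ) = (D : ℚ) - (θ1 j : ℚ) := by
        have := hω j
        exact_mod_cast this
      rw [h8, hθ1]
      push_cast
      rw [← Finset.mul_sum]
      ring
    rw [h7, h5] at h3
    simp only [h6, Finset.sum_const_zero, mul_zero, zero_sub, add_zero, neg_eq_zero] at h3
    have h9 : (∑ j, c j * θ0 j : ℤ) = 0 := by exact_mod_cast h3
    omega
  · obtain ⟨M, n, n0, c, B, q, c0, q0, a1, a2, a3⟩ := h2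
    refine ⟨M, n, n0, c, B, q, c0, q0, a1, fun k => ?_, a3⟩
    obtain ⟨l, b1, b2, b3, b4⟩ := a2 k
    refine ⟨l, b1, b2, b3, ?_⟩
    have h5 : ∑ j, ((c0 k j : ℝ) + l j) * ((-(((D - θ1 j).toNat : ℕ) : ℤ) : ℤ) : ℝ) =
        ∑ j, ((c0 k j : ℝ) + l j) * (θ1 j : ℝ) - (D : ℝ) * ∑ j, ((c0 k j : ℝ) + l j) := by
      rw [Finset.mul_sum, ← Finset.sum_sub_distrib]
      refine Finset.sum_congr rfl fun j _ => ?_
      rw [hω j]
      push_cast
      ring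
    rw [h5, b2, mul_zero, sub_zero]
    exact b4

end Pool.Agent.Y26.HX
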