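import Pool.Agent.Y228.HX.Stm3

/-! Independence of the cells. -/

set_option autoImplicit false

namespace Pool.Agent.Y26.HX

open Pool.Agent.Y228.HX

theorem ind_of_TT {r N : ℕ} {v : Fin r → Fin N → ℕ} {ω : Fin r → ℕ} (hG : Gen v ω)
    {I : Finset (Fin r)} (hI : TT v ω I) : Ind v I := by
  obtain ⟨w, a, _, _, h3⟩ := hI 0
  refine hG I fun c hc => ?_
  have h4 : ∑ j, c j * (ω j : ℚ) = a * ∑ j, c j - ∑ i, w i * ∑ j, c j * (v j i : ℚ) := by
    simp only [Finset.mul_sum]
    rw [Finset.sum_comm, ← Finset.sum_sub_distrib]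
    refine Finset.sum_congr rfl fun j _ => ?_
    by_cases hj : j ∈ I
    · have h5 := h3 j hj
      have h6 : ∑ i, w i * (c j * (v j i : ℚ)) = c j * ∑ i, w i * (v j i : ℚ) := by
        rw [Finset.mul_sum]
        exact Finset.sum_congr rfl fun i _ => by ring
      rw [h6, ← h5]; ring
    · rw [hc.1 j hj]; simp
  rw [h4, hc.2.1]
  simp only [hc.2.2, mul_zero, Finset.sum_const_zero, sub_zero]

theorem t_INDP : S_INDP := by
  intro r N v ω hG
  refine ⟨fun I hI => ind_of_TT hG hI, fun wk mk hmk I hI hw c hc => ?_⟩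
  obtain ⟨h1, h2, h3⟩ := hc
  have h4 : ∀ j : Fin r, j ∉ I → c j.succ = 0 := by
    intro j hj
    apply h1
    unfold Ip
    simp only [Finset.mem_insert, Finset.mem_map, Fin.coe_succEmb, not_or, not_exists, not_and]
    refine ⟨Fin.succ_ne_zero j, fun k hk hkj => ?_⟩
    rw [Fin.succ_inj] at hkj
    exact hj (hkj ▸ hk)
  have h5 : ∀ i, ∑ j : Fin r, c j.succ * (v j i : ℚ) = 0 := by
    intro i
    have := h3 i
    rw [Fin.sum_univ_succ] at this
    simpa [vp] using this
  have h6 : ∑ j : Fin r, c j.succ = 0 := by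
    have h7 : mk * ∑ j : Fin r, c j.succ = ∑ i, wk i * ∑ j : Fin r, c j.succ * (v j i : ℚ) := by
      simp only [Finset.mul_sum]
      rw [Finset.sum_comm]
      refine Finset.sum_congr rfl fun j _ => ?_
      by_cases hj : j ∈ I
      · rw [← hw j hj, Finset.sum_mul]
        exact Finset.sum_congr rfl fun i _ => by ring
      · rw [h4 j hj]; simp
    simp only [h5, mul_zero, Finset.sum_const_zero] at h7
    exact (mul_eq_zero.1 h7).resolve_left hmk
  have h7 := ind_of_TT hG hI (fun j => c j.succ) ⟨h4, h6, h5⟩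
  rw [Fin.sum_univ_succ, h6, add_zero] at h2
  funext j
  refine Fin.cases h2 (fun j => ?_) j
  exact congrFun h7 j

end Pool.Agent.Y26.HX
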