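import Pool.Agent.Y228.HX.Stm3

/-! The two class functions. -/

set_option autoImplicit false

namespace Pool.Agent.Y26.HX

open Pool.Agent.Y228.HX

theorem mob_sum {R : ℕ} (I : Finset (Fin R)) : ∀ f : Finset (Fin R) → ℂ,
    mob (fun J => ∑ K ∈ J.powerset, f K) I = f I := by
  classical
  induction I using Finset.induction_on with
  | empty =>
    intro f
    unfold mob
    simp
  | insert a I ha ih =>
    intro f
    have h := ih fun K => f (insert a K)
    rw [← h]
    unfold mob
    rw [Finset.sum_powerset_insert ha, ← Finset.sum_add_distrib]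
    refine Finset.sum_congr rfl fun J hJ => ?_
    have haJ : a ∉ J := fun h => ha (Finset.mem_powerset.1 hJ h)
    beta_reduce
    rw [Finset.card_insert_of_notMem ha, Finset.card_insert_of_notMem haJ,
      Finset.sum_powerset_insert haJ]
    rw [show I.card + 1 + (J.card + 1) = (I.card + J.card) + 2 by ring,
      show I.card + 1 + J.card = (I.card + J.card) + 1 by ring, pow_add, pow_succ]
    ring

theorem P0_one {R N : ℕ} (v : Fin R → Fin N → ℕ) (I : Finset (Fin R)) (h : Box0 v I = {0}) :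
    P0 v I = 1 := by
  have h1 : ∀ k, nBox0 v I k = if k = 0 then 1 else 0 := by
    intro k
    unfold nBox0
    rw [h]
    split_ifs with hk
    · have : {y : (Fin N → ℤ) × ℤ | y ∈ ({0} : Set ((Fin N → ℤ) × ℤ)) ∧ y.2 = (k : ℤ)} = {0} := by
        ext y
        constructor
        · exact fun h => h.1
        · intro h
          refine ⟨h, ?_⟩
          rw [Set.mem_singleton_iff.1 h, hk]
          rfl
      rw [this, Set.ncard_singleton]
    · have : {y : (Fin N → ℤ) × ℤ | y ∈ ({0} : Set ((Fin N → ℤ) × ℤ)) ∧ y.2 = (k : ℤ)} = ∅ := by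
        ext y
        constructor
        · rintro ⟨h2, h3⟩
          rw [Set.mem_singleton_iff.1 h2] at h3
          have h4 : (0 : ℤ) = (k : ℤ) := h3
          exact hk (by exact_mod_cast h4.symm)
        · exact fun h => h.elim
      rw [this, Set.ncard_empty]
  unfold P0
  rw [Finset.sum_eq_single 0]
  · rw [h1]; simp
  · intro k _ hk
    rw [h1, if_neg hk]; simp
  · intro h; exact absurd (Finset.mem_range.2 (Nat.succ_pos R)) h

theorem ind_empty {R N : ℕ} (v : Fin R → Fin N → ℕ) : Ind v ∅ := by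
  intro c hc
  funext j
  exact hc.1 j (Finset.notMem_empty j)

theorem box_empty {R N : ℕ} (v : Fin R → Fin N → ℕ) : Box0 v ∅ = {0} := by
  ext y
  constructor
  · rintro ⟨l, h1, _, h3, h4⟩
    have h5 : ∀ j, l j = 0 := fun j => h1 j (Finset.notMem_empty j)
    simp only [h5, zero_mul, Finset.sum_const_zero] at h3 h4
    rw [Set.mem_singleton_iff]
    refine Prod.ext (funext fun i => ?_) ?_
    · have := h3 i
      exact_mod_cast this
    · exact_mod_cast h4
  · intro h
    rw [Set.mem_singleton_iff.1 h]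
    exact ⟨fun _ => 0, fun _ _ => rfl, fun j hj => absurd hj (Finset.notMem_empty j),
      fun i => by simp, by simp⟩

theorem gI_empty {R N : ℕ} (q : ℕ) (v : Fin R → Fin N → ℕ) : gI q v ∅ = 1 := by
  unfold gI
  rw [if_pos (ind_empty v), P0_one v ∅ (box_empty v)]
  simp

theorem Ip_empty {R : ℕ} : Ip (∅ : Finset (Fin R)) = {0} := by
  unfold Ip
  simp

theorem sum_zero_supp {R : ℕ} (c f : Fin (R + 1) → ℚ) (hc : ∀ j, j ∉ ({0} : Finset (Fin (R + 1))) →
    c j = 0) : ∑ j, c j * f j = c 0 * f 0 := by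
  rw [Finset.sum_eq_single 0]
  · intro j _ hj
    rw [hc j (by simpa using hj), zero_mul]
  · intro h; exact absurd (Finset.mem_univ _) h

theorem ind_Ip {R N : ℕ} (v : Fin R → Fin N → ℕ) : Ind (vp v) (Ip ∅) := by
  rw [Ip_empty]
  intro c hc
  have h1 := sum_zero_supp c (fun _ => 1) hc.1
  simp only [mul_one] at h1
  rw [hc.2.1] at h1
  funext j
  by_cases hj : j = 0
  · rw [hj]; exact h1.symm
  · exact hc.1 j (by simpa using hj)

theorem box_Ip {R N : ℕ} (v : Fin R → Fin N → ℕ) : Box0 (vp v) (Ip ∅) = {0} := by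
  rw [Ip_empty]
  ext y
  constructor
  · rintro ⟨l, h1, h2, h3, h4⟩
    rw [Set.mem_singleton_iff]
    refine Prod.ext (funext fun i => ?_) ?_
    · have h5 := h3 i
      rw [sum_zero_supp l (fun j => (vp v j i : ℚ)) h1] at h5
      have h6 : (vp v 0 i : ℚ) = 0 := by simp [vp]
      rw [h6, mul_zero] at h5
      exact_mod_cast h5
    · have h5 := sum_zero_supp l (fun _ => 1) h1
      simp only [mul_one] at h5
      rw [h5] at h4
      obtain ⟨h6, h7⟩ := h2 0 (by simp)
      rw [← h4] at h6 h7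
      have h8 : (0 : ℤ) ≤ y.2 := by exact_mod_cast h6
      have h9 : y.2 < 1 := by exact_mod_cast h7
      have : y.2 = 0 := by omega
      exact this
  · intro h
    rw [Set.mem_singleton_iff.1 h]
    exact ⟨fun _ => 0, fun _ _ => rfl, fun j _ => ⟨le_refl _, one_pos⟩,
      fun i => by simp, by simp⟩

theorem q1 {q : ℕ} (hq : 2 ≤ q) : 1 - (q : ℂ)⁻¹ ≠ 0 := by
  have hq0 : (q : ℂ) ≠ 0 := by
    have : q ≠ 0 := by omega
    exact_mod_cast this
  intro h
  have h1 : (q : ℂ)⁻¹ = 1 := by linear_combination -h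
  have h2 : (q : ℂ) = 1 := by
    rw [← inv_inv (q : ℂ), h1, inv_one]
  have : q = 1 := by exact_mod_cast h2
  omega

theorem kI_empty {R N q : ℕ} (hq : 2 ≤ q) (v : Fin R → Fin N → ℕ) : kI q v ∅ = 0 := by
  unfold kI
  rw [gI_empty]
  unfold gI
  rw [if_pos (ind_Ip v), P0_one _ _ (box_Ip v), Ip_empty]
  have := q1 hq
  simp only [Finset.card_singleton, pow_one, map_one, mul_one]
  generalize 1 - (q : ℂ)⁻¹ = z at this ⊢
  field_simp
  ring

theorem Ip_insert {R : ℕ} (j0 : Fin R) (I : Finset (Fin R)) :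
    Ip (insert j0 I) = insert j0.succ (Ip I) := by
  unfold Ip
  rw [Finset.map_insert, Finset.insert_comm]
  rfl

theorem rel_sum {R : ℕ} (q : ℂ) (f : Finset (Fin R) → ℂ) (j0 : Fin R) (τ : Finset (Fin R))
    (hj : j0 ∉ τ) (h : ∀ I, I ⊆ τ → (q - 1) * f (insert j0 I) + q * f I = 0) :
    (q - 1) * ∑ I ∈ (insert j0 τ).powerset, f I + ∑ I ∈ τ.powerset, f I = 0 := by
  rw [Finset.sum_powerset_insert hj]
  have h1 : ∑ I ∈ τ.powerset, ((q - 1) * f (insert j0 I) + q * f I) = 0 :=
    Finset.sum_eq_zero fun I hI => h I (Finset.mem_powerset.1 hI)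
  rw [Finset.sum_add_distrib, ← Finset.mul_sum, ← Finset.mul_sum] at h1
  linear_combination h1

theorem eval_P0Z {R N : ℕ} (v : Fin R → Fin N → ℕ) (I : Finset (Fin R)) (z : ℂ) :
    Polynomial.eval₂ (Int.castRingHom ℂ) z (P0Z v I) = Polynomial.aeval z (P0 v I) := by
  unfold P0Z P0
  rw [Polynomial.eval₂_finsetSum, map_sum]
  refine Finset.sum_congr rfl fun k _ => ?_
  simp [Polynomial.eval₂_mul]

theorem t_KR2 : S_KREL → S_KR2 := by
  intro hK
  refine ⟨fun R f I => mob_sum I f, fun q R N hq v => ⟨?_, ?_, ?_, ?_⟩⟩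
  · unfold gE
    rw [Finset.powerset_empty, Finset.sum_singleton, gI_empty]
  · unfold kF
    rw [Finset.powerset_empty, Finset.sum_singleton, kI_empty hq]
  · intro i j0 τ h0 hτ
    have hj : j0 ∉ τ := by
      intro h; have := hτ j0 h; omega
    have h1 : ∀ I, I ⊆ τ → ((q : ℂ) - 1) * gI q v (insert j0 I) + q * gI q v I = 0 :=
      fun I hI => hK q R N hq v i j0 I h0 fun j hj => hτ j (hI hj)
    have h2 : ∀ I, I ⊆ τ → ((q : ℂ) - 1) * kI q v (insert j0 I) + q * kI q v I = 0 := by
      intro I hI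
      have h3 := hK q (R + 1) N hq (vp v) i j0.succ (Ip I) (by simpa [vp] using h0) (by
        intro j hj
        unfold Ip at hj
        simp only [Finset.mem_insert, Finset.mem_map, Fin.coe_succEmb] at hj
        rcases hj with rfl | ⟨k, hk, rfl⟩
        · simp [vp]
        · have := hτ k (hI hk)
          simpa [vp] using this)
      unfold kI
      rw [Ip_insert]
      linear_combination -(1 - (q : ℂ)⁻¹) * h3 - h1 I hI
    exact ⟨rel_sum q _ j0 τ hj h1, rel_sum q _ j0 τ hj h2⟩
  · intro I D hD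
    unfold gN gI
    split_ifs with hI
    · have h1 := q1 hq
      rw [Polynomial.eval₂_mul, Polynomial.eval₂_mul, eval_P0Z]
      simp only [Polynomial.eval₂_pow, Polynomial.eval₂_neg, Polynomial.eval₂_one,
        Polynomial.eval₂_sub, Polynomial.eval₂_X]
      have h2 : (1 - (q : ℂ)⁻¹) ^ D = (1 - (q : ℂ)⁻¹) ^ (D - I.card) * (1 - (q : ℂ)⁻¹) ^ I.card := by
        rw [← pow_add, Nat.sub_add_cancel hD]
      rw [h2]
      have h3 := pow_ne_zero I.card h1
      field_simp
    · simp

end Pool.Agent.Y26.HX
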