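import Pool.Agent.Y228.HX.Stm

/-! The relation for `gI`. -/

set_option autoImplicit false

namespace Pool.Agent.Y26.HX

open Pool.Agent.Y228.HX

theorem sum_single {R : ℕ} {I : Finset (Fin R)} {j0 : Fin R} {N : ℕ} {v : Fin R → Fin N → ℕ}
    {i : Fin N} (h0 : v j0 i = 1) (hI : ∀ j ∈ I, v j i = 0) {c : Fin R → ℚ}
    (hc : ∀ j, j ∉ insert j0 I → c j = 0) : ∑ j, c j * (v j i : ℚ) = c j0 := by
  rw [Finset.sum_eq_single j0]
  · rw [h0]; simp
  · intro j _ hj
    by_cases hj2 : j ∈ I
    · rw [hI j hj2]; simp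
    · rw [hc j (by simp [hj, hj2]), zero_mul]
  · intro h; exact absurd (Finset.mem_univ _) h

theorem t_KREL : S_KREL := by
  intro q R N hq v i j0 I h0 hI
  have hj0 : j0 ∉ I := by
    intro h; have := hI j0 h; omega
  have hInd : Ind v (insert j0 I) ↔ Ind v I := by
    constructor
    · intro h c hc
      refine h c ⟨fun j hj => hc.1 j fun h => hj (Finset.mem_insert_of_mem h), hc.2⟩
    · intro h c hc
      have h1 : c j0 = 0 := by
        rw [← sum_single h0 hI hc.1]; exact hc.2.2 i
      refine h c ⟨fun j hj => ?_, hc.2⟩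
      by_cases hj2 : j = j0
      · rw [hj2, h1]
      · exact hc.1 j (by simp [hj, hj2])
  have hbox : Box0 v (insert j0 I) = Box0 v I := by
    ext y
    constructor
    · rintro ⟨l, h1, h2, h3, h4⟩
      have h5 : (y.1 i : ℚ) = l j0 := by
        rw [h3 i]; exact sum_single h0 hI h1
      obtain ⟨h6, h7⟩ := h2 j0 (Finset.mem_insert_self _ _)
      have h8 : l j0 = 0 := by
        rw [← h5] at h6 h7 ⊢
        have h9 : (0 : ℤ) ≤ y.1 i := by exact_mod_cast h6
        have h10 : y.1 i < 1 := by exact_mod_cast h7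
        have : y.1 i = 0 := by omega
        rw [this]; simp
      refine ⟨l, fun j hj => ?_, fun j hj => h2 j (Finset.mem_insert_of_mem hj), h3, h4⟩
      by_cases hj2 : j = j0
      · rw [hj2, h8]
      · exact h1 j (by simp [hj, hj2])
    · rintro ⟨l, h1, h2, h3, h4⟩
      refine ⟨l, fun j hj => h1 j fun h => hj (Finset.mem_insert_of_mem h), fun j hj => ?_, h3, h4⟩
      rcases Finset.mem_insert.1 hj with rfl | hj
      · rw [h1 _ hj0]; norm_num
      · exact h2 j hj
  have hP : P0 v (insert j0 I) = P0 v I := by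
    unfold P0 nBox0
    rw [hbox]
  unfold gI
  by_cases hi : Ind v I
  · rw [if_pos hi, if_pos (hInd.2 hi), hP, Finset.card_insert_of_notMem hj0]
    have hq0 : (q : ℂ) ≠ 0 := by
      have : q ≠ 0 := by omega
      exact_mod_cast this
    have hq1 : (q : ℂ) - 1 ≠ 0 := by
      intro h
      have h2 : (q : ℂ) = 1 := by linear_combination h
      have : q = 1 := by exact_mod_cast h2
      omega
    have hq2 : 1 - (q : ℂ)⁻¹ ≠ 0 := by
      have : 1 - (q : ℂ)⁻¹ = ((q : ℂ) - 1) / q := by field_simp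
      rw [this]
      exact div_ne_zero hq1 hq0
    have e : (q : ℂ) - 1 = q * (1 - (q : ℂ)⁻¹) := by field_simp
    rw [e, pow_succ, pow_succ]
    generalize (Polynomial.aeval ((q : ℂ)⁻¹)) (P0 v I) = P
    generalize hz : 1 - (q : ℂ)⁻¹ = z at hq2 ⊢
    field_simp
    ring
  · rw [if_neg hi, if_neg fun h => hi (hInd.1 h)]
    ring

end Pool.Agent.Y26.HX
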